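import Mathlib

/-!
# Counting: the free Lie algebra on letters of weights 2, 3 over `ZMod p` against the free Lie
algebra over `ℚ` on letters of weights 3, 5, 7, …

`bm f m` is the bracket monomial `m` evaluated at `f`, `VW R f wt w` the span of the bracket
monomials of weight `w`.  The main result `count_le`: for `w ≠ 2`, the dimension over `ZMod p` of
the weight `w` part of the Lie algebra generated in the algebra of non-commutative polynomials by
letters of weights `2, 3` is at most the dimension over `ℚ` of the weight `w` part of the Lie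
algebra generated by letters `s_k` (`k : ℕ`) of weights `2 k + 3` (Lazard elimination, and the rank
of an integral matrix modulo `p`).
-/

set_option autoImplicit false

namespace Pool.Agent.ECC

attribute [local instance] LieRing.ofAssociativeRing

noncomputable section

section bracket
variable {X : Type*}

/-- A bracket monomial. -/
def bm {L : Type*} [Bracket L L] (f : X → L) : FreeMagma X → L
  | .of x => f x
  | .mul a b => ⁅bm f a, bm f b⁆

/-- The weight of a bracket monomial. -/
def mwt (wt : X → ℕ) : FreeMagma X → ℕ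
  | .of x => wt x
  | .mul a b => mwt wt a + mwt wt b

variable (R : Type*) [CommRing R] {L : Type*} [LieRing L] [LieAlgebra R L]
variable {L' : Type*} [LieRing L'] [LieAlgebra R L']

/-- The span of the bracket monomials of weight `w`. -/
def VW (f : X → L) (wt : X → ℕ) (w : ℕ) : Submodule R L :=
  Submodule.span R {p | ∃ m, mwt wt m = w ∧ bm f m = p}

theorem bm_mem_VW (f : X → L) (wt : X → ℕ) (m : FreeMagma X) : bm f m ∈ VW R f wt (mwt wt m) :=
  Submodule.subset_span ⟨m, rfl, rfl⟩

theorem lie_mem_VW {f : X → L} {wt : X → ℕ} {u v : ℕ} {a b : L} (ha : a ∈ VW R f wt u)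
    (hb : b ∈ VW R f wt v) : ⁅a, b⁆ ∈ VW R f wt (u + v) := by
  induction ha using Submodule.span_induction with
  | mem a ha =>
    obtain ⟨m, hm, rfl⟩ := ha
    induction hb using Submodule.span_induction with
    | mem b hb =>
      obtain ⟨n, hn, rfl⟩ := hb
      have := bm_mem_VW R f wt (.mul m n)
      rwa [mwt, hm, hn] at this
    | zero => rw [lie_zero]; exact Submodule.zero_mem _
    | add b c _ _ hb hc => rw [lie_add]; exact Submodule.add_mem _ hb hc
    | smul r b _ hb => rw [lie_smul]; exact Submodule.smul_mem _ _ hb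
  | zero => rw [zero_lie]; exact Submodule.zero_mem _
  | add b c _ _ hb hc => rw [add_lie]; exact Submodule.add_mem _ hb hc
  | smul r b _ hb => rw [smul_lie]; exact Submodule.smul_mem _ _ hb

theorem map_bm (φ : L →ₗ⁅R⁆ L') (f : X → L) (m : FreeMagma X) :
    φ (bm f m) = bm (fun x => φ (f x)) m := by
  induction m using FreeMagma.rec with
  | of x => rfl
  | mul a b iha ihb => rw [bm, bm, LieHom.map_lie, iha, ihb]

theorem map_VW (φ : L →ₗ⁅R⁆ L') (f : X → L) (wt : X → ℕ) (w : ℕ) :
    (VW R f wt w).map (φ : L →ₗ[R] L') = VW R (fun x => φ (f x)) wt w := by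
  rw [VW, Submodule.map_span, VW]
  congr 1
  ext p
  constructor
  · rintro ⟨_, ⟨m, hm, rfl⟩, rfl⟩
    exact ⟨m, hm, (map_bm R φ f m).symm⟩
  · rintro ⟨m, hm, rfl⟩
    exact ⟨_, ⟨m, hm, rfl⟩, map_bm R φ f m⟩

/-- The monomials of given weight are finite in number, if the weights are positive and every
weight is taken by finitely many letters. -/
theorem finite_mwt (wt : X → ℕ) (hpos : ∀ x, 0 < wt x) (hfin : ∀ n, {x | wt x = n}.Finite) (w : ℕ) :
    {m : FreeMagma X | mwt wt m = w}.Finite := by
  induction w using Nat.strong_induction_on with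
  | _ w ih =>
    have hp : ∀ m : FreeMagma X, 0 < mwt wt m := by
      intro m
      induction m using FreeMagma.rec with
      | of x => exact hpos x
      | mul a b iha ihb => rw [mwt]; omega
    have : {m : FreeMagma X | mwt wt m = w} ⊆
        FreeMagma.of '' {x | wt x = w} ∪
        ⋃ u ∈ Finset.range w, Set.image2 FreeMagma.mul
          {m : FreeMagma X | mwt wt m = u} {m : FreeMagma X | 0 < u ∧ mwt wt m = w - u} := by
      intro m hm
      cases m with
      | of x => left; exact ⟨x, hm, rfl⟩
      | mul a b =>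
        right
        change mwt wt a + mwt wt b = w at hm
        simp only [Set.mem_iUnion]
        have ha := hp a
        have hb := hp b
        exact ⟨mwt wt a, Finset.mem_range.2 (by omega), a, rfl, b, ⟨ha, by omega⟩, rfl⟩
    refine Set.Finite.subset ?_ this
    refine Set.Finite.union ((hfin w).image _) ?_
    refine Set.Finite.biUnion (Finset.finite_toSet _) ?_
    intro u hu
    have hu' : u < w := by simpa using hu
    by_cases h0 : 0 < u
    · apply Set.Finite.image2 _ (ih u hu')
      exact (ih (w - u) (by omega)).subset (fun m hm => hm.2)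
    · apply Set.Finite.image2 _ (ih u hu')
      have : {m : FreeMagma X | 0 < u ∧ mwt wt m = w - u} = ∅ := by
        ext m; simp [h0]
      rw [this]; exact Set.finite_empty

theorem VW_finite (f : X → L) (wt : X → ℕ) (hpos : ∀ x, 0 < wt x)
    (hfin : ∀ n, {x | wt x = n}.Finite) (w : ℕ) : Module.Finite R (VW R f wt w) := by
  have : {p | ∃ m, mwt wt m = w ∧ bm f m = p} = bm f '' {m : FreeMagma X | mwt wt m = w} := by
    ext p; simp [Set.mem_image]
  rw [VW, this]
  exact Module.Finite.span_of_finite R ((finite_mwt wt hpos hfin w).image _)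

end bracket

/-! ### Lazard elimination -/
section lazard
variable (R : Type*) [CommRing R] {L : Type*} [LieRing L] [LieAlgebra R L]

/-- `ad(x)^k y`. -/
def adk (x y : L) : ℕ → L
  | 0 => y
  | k + 1 => ⁅x, adk x y k⁆

/-- The weight of the letter `s_k`. -/
def ow (k : ℕ) : ℕ := 2 * k + 3

theorem ad_VW (x y : L) {v : ℕ} {b : L} (hb : b ∈ VW R (adk x y) ow v) :
    ⁅x, b⁆ ∈ VW R (adk x y) ow (v + 2) := by
  induction hb using Submodule.span_induction with
  | zero => rw [lie_zero]; exact Submodule.zero_mem _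
  | add b c _ _ hb hc => rw [lie_add]; exact Submodule.add_mem _ hb hc
  | smul r b _ hb => rw [lie_smul]; exact Submodule.smul_mem _ _ hb
  | mem b hb =>
    obtain ⟨m, hm, rfl⟩ := hb
    induction m using FreeMagma.rec generalizing v with
    | of k =>
      have := bm_mem_VW R (adk x y) ow (.of (k + 1))
      rw [mwt, ow] at this
      rw [mwt, ow] at hm
      have h2 : v + 2 = 2 * (k + 1) + 3 := by omega
      rw [h2]
      exact this
    | mul a b iha ihb =>
      rw [mwt] at hm
      rw [bm, leibniz_lie]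
      apply Submodule.add_mem
      · have := lie_mem_VW R (iha (v := mwt ow a) rfl) (bm_mem_VW R (adk x y) ow b)
        rwa [show mwt ow a + 2 + mwt ow b = v + 2 by omega] at this
      · have := lie_mem_VW R (bm_mem_VW R (adk x y) ow a) (ihb (v := mwt ow b) rfl)
        rwa [show mwt ow a + (mwt ow b + 2) = v + 2 by omega] at this

/-- The weights of the two letters: `true` has weight `2`, `false` has weight `3`. -/
def tw (b : Bool) : ℕ := if b then 2 else 3

theorem two_le_mwt (m : FreeMagma Bool) : 2 ≤ mwt tw m := by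
  induction m using FreeMagma.rec with
  | of x => cases x <;> simp [mwt, tw]
  | mul a b iha ihb => rw [mwt]; omega

theorem lazard (f : Bool → L) (m : FreeMagma Bool) :
    (∃ c : R, mwt tw m = 2 ∧ bm f m = c • f true) ∨
      bm f m ∈ VW R (adk (f true) (f false)) ow (mwt tw m) := by
  induction m using FreeMagma.rec with
  | of b =>
    cases b with
    | true => left; exact ⟨1, rfl, by rw [bm, one_smul]⟩
    | false =>
      right
      exact bm_mem_VW R (adk (f true) (f false)) ow (.of 0)
  | mul a b iha ihb =>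
    right
    rw [bm, mwt]
    rcases iha with ⟨c, ha, ha'⟩ | ha
    · rcases ihb with ⟨d, hb, hb'⟩ | hb
      · rw [ha', hb', smul_lie, lie_smul, lie_self, smul_zero, smul_zero]
        exact Submodule.zero_mem _
      · rw [ha', ha, smul_lie, add_comm]
        exact Submodule.smul_mem _ _ (ad_VW R _ _ hb)
    · rcases ihb with ⟨d, hb, hb'⟩ | hb
      · rw [hb', hb, lie_smul, ← lie_skew]
        exact Submodule.smul_mem _ _ (Submodule.neg_mem _ (ad_VW R _ _ ha))
      · exact lie_mem_VW R ha hb

/-- Lazard elimination: in weight `w ≠ 2`, the Lie algebra generated by `x` (weight `2`) and `y`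
(weight `3`) is generated by the `ad(x)^k y`. -/
theorem VW_le_lazard (f : Bool → L) {w : ℕ} (hw : w ≠ 2) :
    VW R f tw w ≤ VW R (adk (f true) (f false)) ow w := by
  rw [VW, Submodule.span_le]
  rintro _ ⟨m, rfl, rfl⟩
  rcases lazard R f m with ⟨c, hc, _⟩ | h
  · exact absurd hc hw
  · exact h

end lazard

/-! ### Non-commutative polynomials -/
section nc
variable (R : Type*) [CommRing R] (X : Type*)

/-- Non-commutative polynomials. -/
abbrev NP := MonoidAlgebra R (FreeMonoid X)

variable {X}

/-- A letter. -/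
def lt (x : X) : NP R X := MonoidAlgebra.single (FreeMonoid.of x) 1

variable {R}

/-- Evaluation. -/
def evl {A : Type*} [Ring A] [Algebra R A] (f : X → A) : NP R X →ₐ[R] A :=
  MonoidAlgebra.lift R A (FreeMonoid X) (FreeMonoid.lift f)

theorem evl_lt {A : Type*} [Ring A] [Algebra R A] (f : X → A) (x : X) : evl f (lt R x) = f x := by
  simp [evl, lt]

/-- The bracket monomials over `R` are the images of the integral ones. -/
theorem coeff_bm (m : FreeMagma X) (l : FreeMonoid X) :
    (bm (lt R) m).coeff l = (((bm (lt ℤ) m).coeff l : ℤ) : R) := by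
  have h : bm (lt R) m = MonoidAlgebra.mapRingHom (FreeMonoid X) (Int.castRingHom R)
      (bm (lt ℤ) m) := by
    induction m using FreeMagma.rec with
    | of x => simp [bm, lt]
    | mul a b iha ihb =>
      rw [bm, bm, Ring.lie_def, Ring.lie_def, map_sub, map_mul, map_mul, ← iha, ← ihb]
  rw [h, MonoidAlgebra.coeff_mapRingHom]
  rfl

end nc

/-! ### The rank of an integral matrix modulo `p` -/
section rank

theorem pow_dvd_of_rel {κ J : Type*} [Fintype κ] (v : κ → J → ℤ) (p : ℕ) [Fact p.Prime]
    (hli : LinearIndependent (ZMod p) (fun (k : κ) (j : J) => ((v k j : ℤ) : ZMod p))) (n : ℕ) :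
    ∀ z : κ → ℤ, (∀ j, ∑ k, z k * v k j = 0) → ∀ k, (p : ℤ) ^ n ∣ z k := by
  have hp0 : (p : ℤ) ≠ 0 := by exact_mod_cast (Fact.out : p.Prime).ne_zero
  induction n with
  | zero => intro z _ k; simp
  | succ n ih =>
    intro z hz k
    have h1 : ∀ k, ((z k : ℤ) : ZMod p) = 0 := by
      apply Fintype.linearIndependent_iff.1 hli
      funext j
      have := congrArg (fun x : ℤ => (x : ZMod p)) (hz j)
      simp only [Finset.sum_apply, Pi.smul_apply, smul_eq_mul, Pi.zero_apply]
      push_cast at this
      exact this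
    have h2 : ∀ k, ∃ y : ℤ, z k = p * y := fun k =>
      (ZMod.intCast_zmod_eq_zero_iff_dvd _ p).mp (h1 k)
    choose y hy using h2
    have h3 : ∀ j, ∑ k, y k * v k j = 0 := by
      intro j
      have h4 : (p : ℤ) * ∑ k, y k * v k j = 0 := by
        rw [Finset.mul_sum, ← hz j]
        apply Finset.sum_congr rfl
        intro k _
        rw [hy k]; ring
      exact (mul_eq_zero.1 h4).resolve_left hp0
    rw [hy k, pow_succ']
    exact mul_dvd_mul_left _ (ih y h3 k)

theorem exists_denominator {κ : Type*} [Fintype κ] (c : κ → ℚ) : ∃ (N : ℕ) (z : κ → ℤ), N ≠ 0 ∧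
    ∀ i, (N : ℚ) * c i = z i := by
  classical
  refine ⟨∏ i, (c i).den, fun i => (c i).num * ∏ j ∈ Finset.univ.erase i, ((c j).den : ℤ), ?_, ?_⟩
  · rw [Finset.prod_ne_zero_iff]
    intro i _
    exact (c i).den_ne_zero
  · intro i
    push_cast
    rw [← Finset.mul_prod_erase _ _ (Finset.mem_univ i)]
    have h1 : (c i : ℚ) * (c i).den = (c i).num := Rat.mul_den_eq_num (c i)
    rw [← h1]
    ring

theorem linearIndependent_rat_of_zmod {κ J : Type*} [Fintype κ] (v : κ → J → ℤ) (p : ℕ)
    [Fact p.Prime]
    (hli : LinearIndependent (ZMod p) (fun (k : κ) (j : J) => ((v k j : ℤ) : ZMod p))) :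
    LinearIndependent ℚ (fun (k : κ) (j : J) => ((v k j : ℤ) : ℚ)) := by
  rw [Fintype.linearIndependent_iff]
  intro c hc
  obtain ⟨N, z, hN, hz⟩ := exists_denominator c
  have h1 : ∀ j, ∑ k, z k * v k j = 0 := by
    intro j
    have h2 := congrFun hc j
    simp only [Finset.sum_apply, Pi.smul_apply, smul_eq_mul, Pi.zero_apply] at h2
    have h3 : (((∑ k, z k * v k j : ℤ)) : ℚ) = 0 := by
      push_cast
      rw [← mul_zero (N : ℚ), ← h2, Finset.mul_sum]
      apply Finset.sum_congr rfl
      intro k _
      rw [← hz k]; ring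
    exact_mod_cast h3
  intro k
  have h4 : z k = 0 := by
    by_contra h0
    have h5 := fun n => pow_dvd_of_rel v p hli n z h1 k
    have h6 := h5 (z k).natAbs
    have h7 : (p : ℤ) ^ (z k).natAbs ≤ |z k| :=
      Int.le_of_dvd (abs_pos.2 h0) ((dvd_abs _ _).2 h6)
    have h8 : ((z k).natAbs : ℤ) < (p : ℤ) ^ (z k).natAbs := by
      exact_mod_cast Nat.lt_pow_self (Fact.out : p.Prime).one_lt
    rw [Int.abs_eq_natAbs] at h7
    omega
  have h9 := hz k
  rw [h4] at h9
  have : (N : ℚ) ≠ 0 := by exact_mod_cast hN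
  have h10 : (N : ℚ) * c k = 0 := by simpa using h9
  exact (mul_eq_zero.1 h10).resolve_left this

/-- The rank modulo `p` of an integral family is at most its rational rank. -/
theorem finrank_zmod_le_rat {ι J : Type*} (s : Set ι) (hs : s.Finite) (v : ι → J → ℤ) (p : ℕ)
    [Fact p.Prime] :
    Module.finrank (ZMod p)
        (Submodule.span (ZMod p) ((fun (i : ι) (j : J) => ((v i j : ℤ) : ZMod p)) '' s)) ≤
      Module.finrank ℚ (Submodule.span ℚ ((fun (i : ι) (j : J) => ((v i j : ℤ) : ℚ)) '' s)) := by
  classical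
  obtain ⟨b, hb1, hb2, hb3⟩ := exists_linearIndependent (ZMod p)
    ((fun (i : ι) (j : J) => ((v i j : ℤ) : ZMod p)) '' s)
  have hbf : b.Finite := (hs.image _).subset hb1
  have := hbf.fintype
  have hch : ∀ x : b, ∃ i ∈ s, (fun (j : J) => ((v i j : ℤ) : ZMod p)) = x.1 := by
    intro x
    obtain ⟨i, hi, hi'⟩ := hb1 x.2
    exact ⟨i, hi, hi'⟩
  choose g hg hg' using hch
  have hli : LinearIndependent (ZMod p) (fun (k : b) (j : J) => ((v (g k) j : ℤ) : ZMod p)) := by
    have : (fun (k : b) (j : J) => ((v (g k) j : ℤ) : ZMod p)) = ((↑) : b → J → ZMod p) := by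
      funext k; exact hg' k
    rw [this]; exact hb3
  have hli' := linearIndependent_rat_of_zmod (fun k : b => v (g k)) p hli
  have hfin : Module.Finite ℚ
      (Submodule.span ℚ ((fun (i : ι) (j : J) => ((v i j : ℤ) : ℚ)) '' s)) :=
    Module.Finite.span_of_finite ℚ (hs.image _)
  have hmem : ∀ k : b, (fun (j : J) => ((v (g k) j : ℤ) : ℚ)) ∈
      Submodule.span ℚ ((fun (i : ι) (j : J) => ((v i j : ℤ) : ℚ)) '' s) := fun k =>
    Submodule.subset_span ⟨g k, hg k, rfl⟩
  have hli'' : LinearIndependent ℚ (fun k : b =>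
      (⟨_, hmem k⟩ : Submodule.span ℚ ((fun (i : ι) (j : J) => ((v i j : ℤ) : ℚ)) '' s))) := by
    apply LinearIndependent.of_comp (Submodule.subtype _)
    exact hli'
  have h1 := hli''.fintype_card_le_finrank
  have h2 : Module.finrank (ZMod p)
      (Submodule.span (ZMod p) ((fun (i : ι) (j : J) => ((v i j : ℤ) : ZMod p)) '' s)) =
      Fintype.card b := by
    rw [← hb2]
    have := finrank_span_set_eq_card hb3
    rw [this, Set.toFinset_card]
  rw [h2]
  exact h1

end rank

/-! ### The main result -/
section main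
variable {X : Type*}

/-- The coefficients. -/
def cfs (R : Type*) [CommRing R] (X : Type*) : NP R X →ₗ[R] (FreeMonoid X → R) where
  toFun p := fun l => p.coeff l
  map_add' _ _ := rfl
  map_smul' _ _ := rfl

theorem cfs_injective (R : Type*) [CommRing R] (X : Type*) : Function.Injective (cfs R X) := by
  intro p q h
  apply MonoidAlgebra.coeff_injective
  ext l
  exact congrFun h l

theorem map_cfs_VW (R : Type*) [CommRing R] (wt : X → ℕ) (w : ℕ) :
    (VW R (lt R) wt w).map (cfs R X) = Submodule.span R
      ((fun (m : FreeMagma X) (l : FreeMonoid X) => (((bm (lt ℤ) m).coeff l : ℤ) : R)) ''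
        {m | mwt wt m = w}) := by
  rw [VW, Submodule.map_span]
  congr 1
  ext p
  constructor
  · rintro ⟨_, ⟨m, hm, rfl⟩, rfl⟩
    exact ⟨m, hm, by funext l; exact (coeff_bm m l).symm⟩
  · rintro ⟨m, hm, rfl⟩
    exact ⟨_, ⟨m, hm, rfl⟩, by funext l; exact coeff_bm m l⟩

theorem finrank_VW_zmod_le (wt : X → ℕ) (hpos : ∀ x, 0 < wt x) (hfin : ∀ n, {x | wt x = n}.Finite)
    (w : ℕ) (p : ℕ) [Fact p.Prime] :
    Module.finrank (ZMod p) (VW (ZMod p) (lt (ZMod p) (X := X)) wt w) ≤
      Module.finrank ℚ (VW ℚ (lt ℚ (X := X)) wt w) := by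
  have h1 := (Submodule.equivMapOfInjective _ (cfs_injective (ZMod p) X)
    (VW (ZMod p) (lt (ZMod p) (X := X)) wt w)).finrank_eq
  have h2 := (Submodule.equivMapOfInjective _ (cfs_injective ℚ X)
    (VW ℚ (lt ℚ (X := X)) wt w)).finrank_eq
  rw [h1, h2, map_cfs_VW, map_cfs_VW]
  exact finrank_zmod_le_rat _ (finite_mwt wt hpos hfin w) (fun m l => (bm (lt ℤ) m).coeff l) p

theorem ow_pos (k : ℕ) : 0 < ow k := by unfold ow; omega

theorem ow_fin (n : ℕ) : {k | ow k = n}.Finite := by
  apply Set.Finite.subset (Set.finite_Iic n)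
  intro k hk
  have : 2 * k + 3 = n := hk
  simp only [Set.mem_Iic]; omega

/-- The Lie algebra over `ZMod p` generated by two elements `x` (weight `2`), `y` (weight `3`) of
any associative algebra: its weight `w` part, `w ≠ 2`, has dimension at most the dimension of the
weight `w` part of the free Lie algebra over `ℚ` on letters `s_k` of weights `2 k + 3`. -/
theorem count_le {p : ℕ} [Fact p.Prime] {A : Type*} [Ring A] [Algebra (ZMod p) A] (f : Bool → A)
    {w : ℕ} (hw : w ≠ 2) :
    Module.finrank (ZMod p) (VW (ZMod p) f tw w) ≤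
      Module.finrank ℚ (VW ℚ (lt ℚ (X := ℕ)) ow w) := by
  have hF : Module.Finite (ZMod p) (VW (ZMod p) (adk (f true) (f false)) ow w) :=
    VW_finite _ _ _ ow_pos ow_fin w
  have hF' : Module.Finite (ZMod p) (VW (ZMod p) (lt (ZMod p) (X := ℕ)) ow w) :=
    VW_finite _ _ _ ow_pos ow_fin w
  have h1 := Submodule.finrank_mono (VW_le_lazard (ZMod p) f hw)
  have h2 : VW (ZMod p) (adk (f true) (f false)) ow w =
      (VW (ZMod p) (lt (ZMod p) (X := ℕ)) ow w).map
        (((evl (adk (f true) (f false))).toLieHom : NP (ZMod p) ℕ →ₗ⁅ZMod p⁆ A) :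
          NP (ZMod p) ℕ →ₗ[ZMod p] A) := by
    rw [map_VW]
    congr 1
    funext k
    exact (evl_lt _ _).symm
  have h3 := Submodule.finrank_map_le
    (((evl (adk (f true) (f false))).toLieHom : NP (ZMod p) ℕ →ₗ⁅ZMod p⁆ A) :
          NP (ZMod p) ℕ →ₗ[ZMod p] A) (VW (ZMod p) (lt (ZMod p) (X := ℕ)) ow w)
  rw [← h2] at h3
  exact h1.trans (h3.trans (finrank_VW_zmod_le ow ow_pos ow_fin w p))

end main

end

end Pool.Agent.ECC
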