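import Mathlib
import Pool.Agent.ECC.Count
import Pool.Agent.Lib.H4FreeLie

/-!
# Counting: homogeneous Lie elements and the free Lie algebra

`mem_VW_of_lieSpan`: a homogeneous element of weight `w` of the Lie algebra generated by the
letters is a combination of bracket monomials of weight `w`.
`finrank_freeLie`: the weight `w` part of `FreeLieAlgebra ℚ X` has the same dimension as that of the
Lie algebra generated by the letters in the non-commutative polynomials over `ℚ`.
-/

set_option autoImplicit false

namespace Pool.Agent.ECC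

attribute [local instance] LieRing.ofAssociativeRing

noncomputable section

section hom
variable (R : Type*) [CommRing R] {X : Type*} (wt : X → ℕ)

/-- The weight of a word. -/
def wtl (l : FreeMonoid X) : ℕ := (l.toList.map wt).sum

theorem wtl_mul (a b : FreeMonoid X) : wtl wt (a * b) = wtl wt a + wtl wt b := by
  simp [wtl]

theorem wtl_of (x : X) : wtl wt (FreeMonoid.of x) = wt x := by
  simp [wtl]

/-- The homogeneous polynomials of weight `w`. -/
def Hom (w : ℕ) : Submodule R (NP R X) where
  carrier := {p | ∀ l, p.coeff l ≠ 0 → wtl wt l = w}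
  zero_mem' := by intro l h; exact absurd rfl h
  add_mem' := by
    intro p q hp hq l h
    by_cases h1 : p.coeff l = 0
    · apply hq l
      intro h2
      apply h
      rw [MonoidAlgebra.coeff_add, Finsupp.add_apply, h1, h2, add_zero]
    · exact hp l h1
  smul_mem' := by
    intro c p hp l h
    apply hp l
    intro h1
    apply h
    rw [MonoidAlgebra.coeff_smul_apply, h1, smul_zero]

variable {R}

theorem mem_Hom {w : ℕ} {p : NP R X} : p ∈ Hom R wt w ↔ ∀ l, p.coeff l ≠ 0 → wtl wt l = w :=
  Iff.rfl

theorem mul_mem_Hom {u v : ℕ} {p q : NP R X} (hp : p ∈ Hom R wt u) (hq : q ∈ Hom R wt v) :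
    p * q ∈ Hom R wt (u + v) := by
  classical
  intro l hl
  have h1 : l ∈ (p * q).coeff.support := Finsupp.mem_support_iff.2 hl
  have h2 := MonoidAlgebra.support_coeff_mul_subset p q h1
  obtain ⟨a, ha, b, hb, rfl⟩ := Finset.mem_mul.1 h2
  rw [wtl_mul, hp a (Finsupp.mem_support_iff.1 ha), hq b (Finsupp.mem_support_iff.1 hb)]

theorem bm_mem_Hom (m : FreeMagma X) : bm (lt R) m ∈ Hom R wt (mwt wt m) := by
  classical
  induction m using FreeMagma.rec with
  | of x =>
    intro l hl
    rw [bm, lt, MonoidAlgebra.coeff_single, Finsupp.single_apply] at hl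
    have : FreeMonoid.of x = l := by
      by_contra h
      rw [if_neg h] at hl
      exact hl rfl
    rw [← this, wtl_of, mwt]
  | mul a b iha ihb =>
    rw [bm, mwt, Ring.lie_def]
    apply Submodule.sub_mem
    · exact mul_mem_Hom wt iha ihb
    · rw [add_comm]; exact mul_mem_Hom wt ihb iha

theorem VW_le_Hom (w : ℕ) : VW R (lt R) wt w ≤ Hom R wt w := by
  rw [VW, Submodule.span_le]
  rintro _ ⟨m, rfl, rfl⟩
  exact bm_mem_Hom wt m

/-- Bracket monomials span the generated Lie algebra. -/
theorem mem_span_bm {L : Type*} [LieRing L] [LieAlgebra R L] (f : X → L) {a : L}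
    (ha : a ∈ LieSubalgebra.lieSpan R L (Set.range f)) :
    a ∈ Submodule.span R (Set.range (bm f)) := by
  let K : LieSubalgebra R L :=
    { Submodule.span R (Set.range (bm f)) with
      lie_mem' := by
        intro a b ha hb
        change a ∈ Submodule.span R (Set.range (bm f)) at ha
        change b ∈ Submodule.span R (Set.range (bm f)) at hb
        change ⁅a, b⁆ ∈ Submodule.span R (Set.range (bm f))
        induction ha using Submodule.span_induction with
        | mem a ha =>
          obtain ⟨m, rfl⟩ := ha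
          induction hb using Submodule.span_induction with
          | mem b hb =>
            obtain ⟨n, rfl⟩ := hb
            exact Submodule.subset_span ⟨.mul m n, rfl⟩
          | zero => rw [lie_zero]; exact Submodule.zero_mem _
          | add b c _ _ hb hc => rw [lie_add]; exact Submodule.add_mem _ hb hc
          | smul r b _ hb => rw [lie_smul]; exact Submodule.smul_mem _ _ hb
        | zero => rw [zero_lie]; exact Submodule.zero_mem _
        | add b c _ _ hb hc => rw [add_lie]; exact Submodule.add_mem _ hb hc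
        | smul r b _ hb => rw [smul_lie]; exact Submodule.smul_mem _ _ hb }
  have h : LieSubalgebra.lieSpan R L (Set.range f) ≤ K := by
    rw [LieSubalgebra.lieSpan_le]
    rintro _ ⟨x, rfl⟩
    exact Submodule.subset_span ⟨.of x, rfl⟩
  exact h ha

/-- A homogeneous Lie element of weight `w` is a combination of bracket monomials of weight `w`. -/
theorem mem_VW_of_lieSpan {w : ℕ} {a : NP R X}
    (ha : a ∈ LieSubalgebra.lieSpan R (NP R X) (Set.range (lt R))) (hw : a ∈ Hom R wt w) :
    a ∈ VW R (lt R) wt w := by
  have key : ∃ b ∈ VW R (lt R) wt w, ∀ l, wtl wt l = w → a.coeff l = b.coeff l := by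
    have h := mem_span_bm (lt R) ha
    clear ha hw
    induction h using Submodule.span_induction with
    | mem a ha =>
      obtain ⟨m, rfl⟩ := ha
      by_cases hm : mwt wt m = w
      · exact ⟨_, by rw [← hm]; exact bm_mem_VW R (lt R) wt m, fun l _ => rfl⟩
      · refine ⟨0, Submodule.zero_mem _, fun l hl => ?_⟩
        by_contra h
        exact hm ((bm_mem_Hom wt m l h).symm.trans hl)
    | zero => exact ⟨0, Submodule.zero_mem _, fun l _ => rfl⟩
    | add p q _ _ hp hq =>
      obtain ⟨b, hb, hb'⟩ := hp
      obtain ⟨c, hc, hc'⟩ := hq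
      refine ⟨b + c, Submodule.add_mem _ hb hc, fun l hl => ?_⟩
      rw [MonoidAlgebra.coeff_add, MonoidAlgebra.coeff_add, Finsupp.add_apply, Finsupp.add_apply,
        hb' l hl, hc' l hl]
    | smul r p _ hp =>
      obtain ⟨b, hb, hb'⟩ := hp
      refine ⟨r • b, Submodule.smul_mem _ _ hb, fun l hl => ?_⟩
      rw [MonoidAlgebra.coeff_smul_apply, MonoidAlgebra.coeff_smul_apply, hb' l hl]
  obtain ⟨b, hb, hb'⟩ := key
  have : a = b := by
    apply MonoidAlgebra.coeff_injective
    ext l
    by_cases hl : wtl wt l = w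
    · exact hb' l hl
    · have h1 : a.coeff l = 0 := by
        by_contra h; exact hl (hw l h)
      have h2 : b.coeff l = 0 := by
        by_contra h; exact hl (VW_le_Hom wt w hb l h)
      rw [h1, h2]
  rw [this]; exact hb

end hom

/-- The weight `w` part of the free Lie algebra. -/
abbrev FLw {X : Type*} (wt : X → ℕ) (w : ℕ) : Submodule ℚ (FreeLieAlgebra ℚ X) :=
  VW ℚ (FreeLieAlgebra.of ℚ) wt w

theorem finrank_VW_of_injective {K : Type*} [Field K] {X : Type*} {L L' : Type*} [LieRing L]
    [LieAlgebra K L] [LieRing L'] [LieAlgebra K L'] (φ : L →ₗ⁅K⁆ L') (hφ : Function.Injective φ)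
    (f : X → L) (wt : X → ℕ) (w : ℕ) :
    Module.finrank K (VW K (fun x => φ (f x)) wt w) = Module.finrank K (VW K f wt w) := by
  rw [← map_VW]
  exact ((Submodule.equivMapOfInjective (φ : L →ₗ[K] L') hφ (VW K f wt w)).finrank_eq).symm

theorem finrank_freeLie {X : Type*} (wt : X → ℕ) (w : ℕ) :
    Module.finrank ℚ (VW ℚ (lt ℚ (X := X)) wt w) = Module.finrank ℚ (FLw (X := X) wt w) := by
  have h := finrank_VW_of_injective (Pool.Agent.H4FreeLie.toNC X)
    (Pool.Agent.H4FreeLie.toNC_injective X) (FreeLieAlgebra.of ℚ) wt w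
  rw [← h]
  have : (lt ℚ (X := X)) = fun x => Pool.Agent.H4FreeLie.toNC X (FreeLieAlgebra.of ℚ x) := by
    funext x
    simp [Pool.Agent.H4FreeLie.toNC, lt]
  rw [this]

/-- Final form: a space of homogeneous Lie elements of weight `w ≠ 2` over `ZMod p` in letters of
weights `2, 3` has dimension at most that of the weight `w` part of the free Lie algebra over `ℚ`
on generators of weights `3, 5, 7, …`. -/
theorem finrank_le_freeLie {p : ℕ} [Fact p.Prime] {w : ℕ} (hw : w ≠ 2)
    (V : Submodule (ZMod p) (NP (ZMod p) Bool))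
    (h1 : ∀ a ∈ V, a ∈ LieSubalgebra.lieSpan (ZMod p) (NP (ZMod p) Bool) (Set.range (lt (ZMod p))))
    (h2 : ∀ a ∈ V, a ∈ Hom (ZMod p) tw w) :
    Module.finrank (ZMod p) V ≤ Module.finrank ℚ (FLw ow w) := by
  have h3 : V ≤ VW (ZMod p) (lt (ZMod p)) tw w := fun a ha =>
    mem_VW_of_lieSpan tw (h1 a ha) (h2 a ha)
  have hF : Module.Finite (ZMod p) (VW (ZMod p) (lt (ZMod p) (X := Bool)) tw w) :=
    VW_finite _ _ _ (by intro x; cases x <;> simp [tw]) (fun n => Set.toFinite _) w
  have h4 := Submodule.finrank_mono h3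
  rw [← finrank_freeLie]
  exact h4.trans (count_le (lt (ZMod p)) hw)

end

end Pool.Agent.ECC
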