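import Mathlib

/-!
# Lyndon words in the letters 2, 3 and in the letters 3, 5, 7, …

`Lyn r l`: the word `l` is a Lyndon word for the strict order `r` of the letters (smaller than all
its proper non-empty suffixes).  With `3 < 2` the Lyndon words in the letters `2, 3`, except `[2]`,
are the images of the Lyndon words in the letters `3 < 5 < 7 < …` under the substitution
`2 k + 3 ↦ 3 2^k`, which preserves the weight.
-/

set_option autoImplicit false

namespace Pool.Agent.ECC

section general
variable {α : Type*}

/-- Lyndon words: non-empty and smaller than all proper non-empty suffixes. -/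
def Lyn (r : α → α → Prop) (l : List α) : Prop :=
  l ≠ [] ∧ ∀ u v, l = u ++ v → u ≠ [] → v ≠ [] → List.Lex r l v

end general

/-- The block of an odd letter. -/
def blk (a : ℕ) : List ℕ := 3 :: List.replicate ((a - 3) / 2) 2

/-- The substitution `2 k + 3 ↦ 3 2^k`. -/
def phi (l : List ℕ) : List ℕ := l.flatMap blk

/-- Words in the letters `3, 5, 7, …`. -/
def OddW (l : List ℕ) : Prop := ∀ a ∈ l, a % 2 = 1 ∧ 3 ≤ a

/-- Words in the letters `2, 3`. -/
def TT (l : List ℕ) : Prop := ∀ a ∈ l, a = 2 ∨ a = 3

@[simp] theorem phi_nil : phi [] = [] := rfl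

@[simp] theorem phi_cons (a : ℕ) (l : List ℕ) : phi (a :: l) = blk a ++ phi l := by
  simp [phi]

theorem phi_append (u v : List ℕ) : phi (u ++ v) = phi u ++ phi v := by
  simp [phi]

theorem blk_ne_nil (a : ℕ) : blk a ≠ [] := by simp [blk]

theorem phi_ne_nil {l : List ℕ} (h : l ≠ []) : phi l ≠ [] := by
  cases l with
  | nil => exact absurd rfl h
  | cons a l => rw [phi_cons]; simp [blk]

theorem phi_eq_nil {l : List ℕ} : phi l = [] ↔ l = [] := by
  constructor
  · intro h; by_contra h'; exact phi_ne_nil h' h
  · rintro rfl; rfl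

theorem sum_blk {a : ℕ} (h : a % 2 = 1 ∧ 3 ≤ a) : (blk a).sum = a := by
  simp [blk, List.sum_replicate]; omega

theorem sum_phi {l : List ℕ} (h : OddW l) : (phi l).sum = l.sum := by
  induction l with
  | nil => rfl
  | cons a l ih =>
    rw [phi_cons, List.sum_append, List.sum_cons, sum_blk (h a (by simp)),
      ih (fun b hb => h b (by simp [hb]))]

theorem tt_blk (a : ℕ) : TT (blk a) := by
  intro b hb
  simp only [blk, List.mem_cons, List.mem_replicate] at hb
  rcases hb with rfl | ⟨_, rfl⟩
  · right; rfl
  · left; rfl

theorem tt_phi (l : List ℕ) : TT (phi l) := by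
  intro b hb
  rw [phi, List.mem_flatMap] at hb
  obtain ⟨a, _, hb⟩ := hb
  exact tt_blk a b hb

/-- The order of the letters `2, 3`: `3 < 2`. -/
def gtr (a b : ℕ) : Prop := b < a

theorem phi_head (l : List ℕ) (h : l ≠ []) : ∃ t, phi l = 3 :: t := by
  cases l with
  | nil => exact absurd rfl h
  | cons a l => exact ⟨List.replicate ((a - 3) / 2) 2 ++ phi l, by rw [phi_cons]; rfl⟩

/-- Comparison after a common block: `2 2 ..` against the image of a word. -/
theorem lex_rep {i j : ℕ} (hij : i < j) (l l' : List ℕ) :
    List.Lex gtr (List.replicate i 2 ++ phi l) (List.replicate j 2 ++ phi l') := by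
  induction i generalizing j with
  | zero =>
    obtain ⟨j, rfl⟩ : ∃ j', j = j' + 1 := ⟨j - 1, by omega⟩
    rw [List.replicate_succ]
    simp only [List.replicate_zero, List.nil_append, List.cons_append]
    by_cases h : l = []
    · subst h; exact List.Lex.nil
    · obtain ⟨t, ht⟩ := phi_head l h
      rw [ht]
      exact List.Lex.rel (by simp [gtr])
  | succ i ih =>
    obtain ⟨j, rfl⟩ : ∃ j', j = j' + 1 := ⟨j - 1, by omega⟩
    rw [List.replicate_succ, List.replicate_succ]
    exact List.Lex.cons (ih (by omega))

theorem lex_append_left (u : List ℕ) {l l' : List ℕ} (h : List.Lex gtr l l') :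
    List.Lex gtr (u ++ l) (u ++ l') := by
  induction u with
  | nil => exact h
  | cons a u ih => exact List.Lex.cons ih

/-- `phi` is strictly increasing. -/
theorem lex_phi {l l' : List ℕ} (h1 : OddW l) (h2 : OddW l') (h : List.Lex (· < ·) l l') :
    List.Lex gtr (phi l) (phi l') := by
  induction h with
  | nil =>
    rename_i b l'
    obtain ⟨t, ht⟩ := phi_head (b :: l') (by simp)
    rw [ht]
    exact List.Lex.nil
  | cons _ ih =>
    rw [phi_cons, phi_cons]
    exact lex_append_left _ (ih (fun b hb => h1 b (by simp [hb])) (fun b hb => h2 b (by simp [hb])))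
  | rel hab =>
    rename_i a l b l'
    rw [phi_cons, phi_cons]
    show List.Lex gtr (3 :: (List.replicate _ 2 ++ phi l)) (3 :: (List.replicate _ 2 ++ phi l'))
    apply List.Lex.cons
    apply lex_rep
    have ha := h1 a (by simp)
    have hb := h2 b (by simp)
    omega

theorem lex_trichotomy (l l' : List ℕ) :
    List.Lex (· < ·) l l' ∨ l = l' ∨ List.Lex (· < ·) l' l := by
  induction l generalizing l' with
  | nil =>
    cases l' with
    | nil => right; left; rfl
    | cons b l' => left; exact List.Lex.nil
  | cons a l ih =>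
    cases l' with
    | nil => right; right; exact List.Lex.nil
    | cons b l' =>
      rcases lt_trichotomy a b with h | h | h
      · left; exact List.Lex.rel h
      · subst h
        rcases ih l' with h | h | h
        · left; exact List.Lex.cons h
        · right; left; rw [h]
        · right; right; exact List.Lex.cons h
      · right; right; exact List.Lex.rel h

theorem lex_gtr_irrefl (l : List ℕ) : ¬ List.Lex gtr l l := by
  induction l with
  | nil => intro h; cases h
  | cons a l ih =>
    intro h
    cases h with
    | cons h => exact ih h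
    | rel h => exact absurd h (by simp [gtr])

theorem lex_gtr_asymm {l l' : List ℕ} (h : List.Lex gtr l l') : ¬ List.Lex gtr l' l := by
  induction h with
  | nil => intro h; cases h
  | cons _ ih =>
    intro h
    cases h with
    | cons h => exact ih h
    | rel h => exact absurd h (by simp [gtr])
  | rel hab =>
    intro h
    cases h with
    | cons h => exact absurd hab (by simp [gtr])
    | rel h => simp only [gtr] at *; omega

theorem lex_of_phi {l l' : List ℕ} (h1 : OddW l) (h2 : OddW l')
    (h : List.Lex gtr (phi l) (phi l')) : List.Lex (· < ·) l l' := by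
  rcases lex_trichotomy l l' with h' | h' | h'
  · exact h'
  · subst h'; exact absurd h (lex_gtr_irrefl _)
  · exact absurd h (lex_gtr_asymm (lex_phi h2 h1 h'))

theorem phi_injOn {l l' : List ℕ} (h1 : OddW l) (h2 : OddW l') (h : phi l = phi l') : l = l' := by
  rcases lex_trichotomy l l' with h' | h' | h'
  · have := lex_phi h1 h2 h'; rw [h] at this; exact absurd this (lex_gtr_irrefl _)
  · exact h'
  · have := lex_phi h2 h1 h'; rw [h] at this; exact absurd this (lex_gtr_irrefl _)

/-- Every word in `2, 3` starts with a power of `2` followed by an image. -/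
theorem exists_phi (l : List ℕ) (h : TT l) :
    ∃ k l', OddW l' ∧ l = List.replicate k 2 ++ phi l' := by
  induction l with
  | nil => exact ⟨0, [], (by intro a ha; cases ha), rfl⟩
  | cons a l ih =>
    obtain ⟨k, l', hl', rfl⟩ := ih (fun b hb => h b (by simp [hb]))
    rcases h a (by simp) with rfl | rfl
    · exact ⟨k + 1, l', hl', by rw [List.replicate_succ]; rfl⟩
    · refine ⟨0, (2 * k + 3) :: l', ?_, ?_⟩
      · intro b hb
        rcases List.mem_cons.1 hb with rfl | hb
        · omega
        · exact hl' b hb
      · rw [phi_cons, blk]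
        have : (2 * k + 3 - 3) / 2 = k := by omega
        rw [this]; rfl

/-- A word starting with `3` is an image. -/
theorem exists_phi' (l : List ℕ) (h : TT (3 :: l)) : ∃ l', OddW l' ∧ 3 :: l = phi l' := by
  obtain ⟨k, l', hl', h'⟩ := exists_phi (3 :: l) h
  cases k with
  | zero => exact ⟨l', hl', by simpa using h'⟩
  | succ k => rw [List.replicate_succ] at h'; simp at h'

/-- A non-empty suffix of an image is an image of a suffix, or starts with `2`. -/
theorem suffix_phi {l u v : List ℕ} (h : phi l = u ++ v) (hv : v ≠ []) :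
    (∃ t, v = 2 :: t) ∨ ∃ u' v', l = u' ++ v' ∧ u = phi u' ∧ v = phi v' := by
  induction l generalizing u with
  | nil => rw [phi_nil] at h; simp at h; exact absurd h.2 hv
  | cons a l ih =>
    by_cases hu : u = []
    · subst hu; right; exact ⟨[], a :: l, rfl, rfl, by simpa using h.symm⟩
    rw [phi_cons] at h
    rcases List.append_eq_append_iff.1 h with ⟨t, ht1, ht2⟩ | ⟨t, ht1, ht2⟩
    · -- u = blk a ++ t
      rcases ih ht2 with h' | ⟨u', v', h1, h2, h3⟩
      · left; exact h'
      · right
        refine ⟨a :: u', v', by rw [h1]; rfl, ?_, h3⟩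
        rw [phi_cons, ht1, h2]
    · -- blk a = u ++ t, v = t ++ phi l
      by_cases ht : t = []
      · subst ht
        right
        refine ⟨[a], l, rfl, ?_, by simpa using ht2⟩
        rw [phi_cons, phi_nil, List.append_nil]
        simpa using ht1.symm
      · left
        obtain ⟨c, u, rfl⟩ := List.exists_cons_of_ne_nil hu
        obtain ⟨d, t, rfl⟩ := List.exists_cons_of_ne_nil ht
        rw [blk, List.cons_append, List.cons.injEq] at ht1
        have : d ∈ List.replicate ((a - 3) / 2) 2 := by rw [ht1.2]; simp
        rw [List.mem_replicate] at this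
        rw [this.2] at ht2
        exact ⟨t ++ phi l, by rw [ht2]; rfl⟩

theorem lyn_phi {l : List ℕ} (h : OddW l) : Lyn gtr (phi l) ↔ Lyn (· < ·) l := by
  constructor
  · rintro ⟨h1, h2⟩
    refine ⟨by intro h'; exact h1 (by rw [h']; rfl), ?_⟩
    intro u v huv hu hv
    have hv' : OddW v := fun a ha => h a (by rw [huv]; simp [ha])
    exact lex_of_phi h hv' (h2 (phi u) (phi v) (by rw [huv, phi_append]) (phi_ne_nil hu)
      (phi_ne_nil hv))
  · rintro ⟨h1, h2⟩
    refine ⟨phi_ne_nil h1, ?_⟩
    intro u v huv hu hv
    rcases suffix_phi huv hv with ⟨t, rfl⟩ | ⟨u', v', h3, h4, h5⟩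
    · obtain ⟨s, hs⟩ := phi_head l h1
      rw [hs]
      exact List.Lex.rel (by simp [gtr])
    · rw [h5]
      have hv' : OddW v' := fun a ha => h a (by rw [h3]; simp [ha])
      apply lex_phi h hv'
      apply h2 u' v' h3
      · intro h'; exact hu (by rw [h4, h']; rfl)
      · intro h'; exact hv (by rw [h5, h']; rfl)

theorem lyn_tt {l : List ℕ} (h : TT l) (hl : Lyn gtr l) (h2 : l ≠ [2]) :
    ∃ l', OddW l' ∧ l = phi l' := by
  cases l with
  | nil => exact absurd rfl hl.1
  | cons a l =>
    rcases h a (by simp) with rfl | rfl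
    · exfalso
      by_cases hn : l = []
      · subst hn; exact h2 rfl
      · have := hl.2 [2] l rfl (by simp) hn
        obtain ⟨b, t, rfl⟩ := List.exists_cons_of_ne_nil hn
        -- a word starting with `2` is smaller than its second suffix: all letters are `2`
        have key : ∀ t : List ℕ, TT t → ¬ List.Lex gtr (2 :: t) t := by
          intro t
          induction t with
          | nil => intro _ h; cases h
          | cons b t ih =>
            intro ht h
            cases h with
            | cons h => exact ih (fun c hc => ht c (by simp [hc])) h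
            | rel h =>
              rcases ht b (by simp) with rfl | rfl
              · simp [gtr] at h
              · simp [gtr] at h
        exact key _ (fun c hc => h c (List.mem_cons_of_mem _ hc)) this
    · exact exists_phi' l h

/-- The bijection. -/
theorem bijOn_phi (w : ℕ) (hw : w ≠ 2) :
    Set.BijOn phi {l | OddW l ∧ l.sum = w ∧ Lyn (· < ·) l} {l | TT l ∧ l.sum = w ∧ Lyn gtr l} := by
  refine ⟨?_, ?_, ?_⟩
  · rintro l ⟨h1, h2, h3⟩
    exact ⟨tt_phi l, by rw [sum_phi h1, h2], (lyn_phi h1).2 h3⟩
  · rintro l ⟨h1, _, _⟩ l' ⟨h1', _, _⟩ h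
    exact phi_injOn h1 h1' h
  · rintro l ⟨h1, h2, h3⟩
    obtain ⟨l', hl', rfl⟩ := lyn_tt h1 h3 (by rintro rfl; exact hw (by simpa using h2.symm))
    exact ⟨l', ⟨hl', by rw [← sum_phi hl', h2], (lyn_phi hl').1 h3⟩, rfl⟩

theorem ncard_lyn (w : ℕ) (hw : w ≠ 2) :
    {l : List ℕ | TT l ∧ l.sum = w ∧ Lyn gtr l}.ncard =
      {l : List ℕ | OddW l ∧ l.sum = w ∧ Lyn (· < ·) l}.ncard := by
  rw [← (bijOn_phi w hw).image_eq]
  exact Set.InjOn.ncard_image (bijOn_phi w hw).injOn

end Pool.Agent.ECC
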