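import Mathlib
import Pool.Agent.ECC.LynBij

/-!
# Lyndon brackets in free Lie algebras

`IsBr l x`: the element `x` of the free Lie algebra is a bracketing of the Lyndon word `l` along
factorisations of Lyndon words into Lyndon words.  Every Lyndon word has such a bracketing
(`exists_isBr`), and its image in the free associative algebra is `l` plus larger words of the same
length (`IsBr.lead`).  Therefore bracketings of different Lyndon words are linearly independent
(`linearIndependent_of_isBr`).  `exists_family` and `le_range_of_finrank_le` are the versions for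
families of free generators of a graded Lie algebra; `le_range_of_finrank_le_odd` is the case with one
generator in each odd weight at least `3`, with the number of Lyndon words in the letters
`3, 5, 7, …` as the bound.
-/

set_option autoImplicit false

namespace Pool.Agent.ECC

section words

variable {α : Type*}

theorem lex_cases {r : α → α → Prop} {b u : List α} (h : List.Lex r b u) :
    (∃ z, z ≠ [] ∧ u = b ++ z) ∨ ∀ x y, List.Lex r (b ++ x) (u ++ y) := by
  induction h with
  | nil => exact Or.inl ⟨_, by simp, rfl⟩
  | rel h => exact Or.inr fun x y => List.Lex.rel h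
  | cons _ ih =>
    rcases ih with ⟨z, hz, rfl⟩ | h
    · exact Or.inl ⟨z, hz, rfl⟩
    · exact Or.inr fun x y => List.Lex.cons (h x y)

theorem lex_append {r : α → α → Prop} (u : List α) {l l' : List α} (h : List.Lex r l l') :
    List.Lex r (u ++ l) (u ++ l') := by
  induction u with
  | nil => exact h
  | cons a u ih => exact List.Lex.cons ih

theorem lex_append_cancel {r : α → α → Prop} (hr : ∀ a, ¬ r a a) (u : List α) {l l' : List α}
    (h : List.Lex r (u ++ l) (u ++ l')) : List.Lex r l l' := by
  induction u with
  | nil => exact h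
  | cons a u ih =>
    cases h with
    | rel h => exact absurd h (hr a)
    | cons h => exact ih h

theorem lex_cons_iff {r : α → α → Prop} {a b : α} {l l' : List α} :
    List.Lex r (a :: l) (b :: l') ↔ r a b ∨ (a = b ∧ List.Lex r l l') := by
  constructor
  · intro h
    generalize hx : a :: l = x at h
    generalize hy : b :: l' = y at h
    cases h with
    | nil => cases hx
    | rel h => cases hx; cases hy; exact Or.inl h
    | cons h => cases hx; cases hy; exact Or.inr ⟨rfl, h⟩
  · rintro (h | ⟨rfl, h⟩)
    · exact List.Lex.rel h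
    · exact List.Lex.cons h

theorem Lyn.append_lt {r : α → α → Prop} {u v : List α} (h : Lyn r (u ++ v)) (hu : u ≠ [])
    (hv : v ≠ []) : List.Lex r (u ++ v) (v ++ u) := by
  rcases lex_cases (h.2 u v rfl hu hv) with ⟨z, hz, h1⟩ | h1
  · exfalso
    have := congrArg List.length h1
    simp only [List.length_append] at this
    have h2 := List.length_pos_of_ne_nil hu
    omega
  · simpa using h1 [] u

variable [LinearOrder α]

/-- Lyndon words with at least two letters are products of two Lyndon words. -/
theorem Lyn.exists_factor {l : List α} (h : Lyn (· < ·) l) (h2 : 2 ≤ l.length) :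
    ∃ u v, l = u ++ v ∧ Lyn (· < ·) u ∧ Lyn (· < ·) v := by
  obtain ⟨i, hi, hmin⟩ := Finset.exists_min_image (Finset.Ico 1 l.length) (fun i => l.drop i)
    ⟨1, by simp; omega⟩
  rw [Finset.mem_Ico] at hi
  have hne1 : l.take i ≠ [] := by
    intro h0
    have := congrArg List.length h0
    simp only [List.length_take, List.length_nil] at this
    omega
  have hne2 : l.drop i ≠ [] := by
    intro h0
    have := congrArg List.length h0
    simp only [List.length_drop, List.length_nil] at this
    omega
  have hmin' : ∀ p q, l = p ++ q → p ≠ [] → q ≠ [] → l.drop i ≤ q := by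
    intro p q hpq hp hq
    have h3 : q = l.drop p.length := by rw [hpq]; simp
    rw [h3]
    refine hmin _ ?_
    rw [Finset.mem_Ico]
    have h4 := List.length_pos_of_ne_nil hp
    have h5 := List.length_pos_of_ne_nil hq
    have h6 := congrArg List.length hpq
    simp only [List.length_append] at h6
    omega
  have hl : l = l.take i ++ l.drop i := (List.take_append_drop i l).symm
  refine ⟨l.take i, l.drop i, hl, ⟨hne1, ?_⟩, ⟨hne2, ?_⟩⟩
  · intro a b hab ha hb
    by_contra hcon
    have hlen := congrArg List.length hab
    simp only [List.length_append] at hlen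
    have hapos := List.length_pos_of_ne_nil ha
    have hlt : b < l.take i := by
      rcases lt_trichotomy b (l.take i) with h3 | h3 | h3
      · exact h3
      · exfalso
        have := congrArg List.length h3
        omega
      · exact absurd h3 hcon
    have hl2 : l = a ++ (b ++ l.drop i) := by
      rw [← List.append_assoc, ← hab]; exact hl
    have h4 : l < b ++ l.drop i := h.2 a _ hl2 ha (by simp [hb])
    rcases lex_cases (show List.Lex (· < ·) b (l.take i) from hlt) with ⟨z, hz, h5⟩ | h5
    · have h6 : l = b ++ (z ++ l.drop i) := by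
        rw [← List.append_assoc, ← h5]; exact hl
      have h7 : b ++ (z ++ l.drop i) < b ++ l.drop i := by rw [← h6]; exact h4
      have h8 : z ++ l.drop i < l.drop i := lex_append_cancel (fun a => lt_irrefl a) b h7
      exact absurd (hmin' b _ h6 hb (by simp [hz])) (not_le.mpr h8)
    · have h6 : b ++ l.drop i < l := by
        conv_rhs => rw [hl]
        exact h5 _ _
      exact lt_asymm h4 h6
  · intro a b hab ha hb
    have hl2 : l = (l.take i ++ a) ++ b := by
      rw [List.append_assoc, ← hab]; exact hl
    have h3 := hmin' _ _ hl2 (by simp [ha]) hb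
    refine lt_of_le_of_ne h3 ?_
    intro h4
    have h5 := congrArg List.length hab
    have h6 := congrArg List.length h4
    have h7 := List.length_pos_of_ne_nil ha
    simp only [List.length_append] at h5
    omega

end words

section free

variable {R : Type*} [CommRing R] {α : Type*} [LinearOrder α]

/-- Bracketings of Lyndon words. -/
inductive IsBr (R : Type*) [CommRing R] {α : Type*} [LinearOrder α] :
    List α → FreeLieAlgebra R α → Prop
  | single (a : α) : IsBr R [a] (FreeLieAlgebra.of R a)
  | mul {u v : List α} {x y : FreeLieAlgebra R α} (hu : Lyn (· < ·) u) (hv : Lyn (· < ·) v)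
      (huv : Lyn (· < ·) (u ++ v)) (hx : IsBr R u x) (hy : IsBr R v y) : IsBr R (u ++ v) ⁅x, y⁆

theorem exists_isBr : ∀ (n : ℕ) (l : List α), l.length = n → Lyn (· < ·) l →
    ∃ x, IsBr R l x := by
  intro n
  induction n using Nat.strong_induction_on with
  | _ n ih =>
    intro l hn hl
    rcases Nat.lt_or_ge l.length 2 with h | h
    · have h1 := List.length_pos_of_ne_nil hl.1
      obtain ⟨a, rfl⟩ := List.length_eq_one_iff.mp (show l.length = 1 by omega)
      exact ⟨_, IsBr.single a⟩
    · obtain ⟨u, v, rfl, hu, hv⟩ := hl.exists_factor h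
      have h1 := List.length_pos_of_ne_nil hu.1
      have h2 := List.length_pos_of_ne_nil hv.1
      rw [List.length_append] at hn
      obtain ⟨x, hx⟩ := ih u.length (by omega) u rfl hu
      obtain ⟨y, hy⟩ := ih v.length (by omega) v rfl hv
      exact ⟨_, IsBr.mul hu hv hl hx hy⟩

attribute [local instance] LieRing.ofAssociativeRing LieAlgebra.ofAssociativeAlgebra

/-- The free Lie algebra inside the free associative algebra. -/
noncomputable def assoc (R : Type*) [CommRing R] (α : Type*) :
    FreeLieAlgebra R α →ₗ⁅R⁆ MonoidAlgebra R (FreeMonoid α) :=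
  FreeLieAlgebra.lift R fun a => MonoidAlgebra.of R (FreeMonoid α) (FreeMonoid.of a)

theorem assoc_of (a : α) : assoc R α (FreeLieAlgebra.of R a) =
    MonoidAlgebra.single (FreeMonoid.ofList [a]) 1 := by
  rw [assoc, FreeLieAlgebra.lift_of_apply]
  rfl

/-- All words of `f` satisfy `P`. -/
def Sp (P : List α → Prop) (f : MonoidAlgebra R (FreeMonoid α)) : Prop :=
  ∀ w : FreeMonoid α, f.coeff w ≠ 0 → P (FreeMonoid.toList w)

theorem Sp.mono {P Q : List α → Prop} {f : MonoidAlgebra R (FreeMonoid α)} (hf : Sp P f)
    (h : ∀ w, P w → Q w) : Sp Q f := fun w hw => h _ (hf w hw)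

theorem Sp.add {P : List α → Prop} {f g : MonoidAlgebra R (FreeMonoid α)} (hf : Sp P f)
    (hg : Sp P g) : Sp P (f + g) := by
  intro w hw
  by_contra hcon
  have h1 : f.coeff w = 0 := by
    by_contra h; exact hcon (hf w h)
  have h2 : g.coeff w = 0 := by
    by_contra h; exact hcon (hg w h)
  apply hw
  rw [MonoidAlgebra.coeff_add, Finsupp.add_apply, h1, h2, add_zero]

theorem Sp.sub {P : List α → Prop} {f g : MonoidAlgebra R (FreeMonoid α)} (hf : Sp P f)
    (hg : Sp P g) : Sp P (f - g) := by
  intro w hw
  by_contra hcon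
  have h1 : f.coeff w = 0 := by
    by_contra h; exact hcon (hf w h)
  have h2 : g.coeff w = 0 := by
    by_contra h; exact hcon (hg w h)
  apply hw
  rw [MonoidAlgebra.coeff_sub, Finsupp.sub_apply, h1, h2, sub_zero]

theorem Sp.mul {P Q S : List α → Prop} {f g : MonoidAlgebra R (FreeMonoid α)} (hf : Sp P f)
    (hg : Sp Q g) (h : ∀ p q, P p → Q q → S (p ++ q)) : Sp S (f * g) := by
  classical
  intro w hw
  rw [MonoidAlgebra.coeff_mul] at hw
  obtain ⟨p, hp, hp2⟩ := Finset.exists_ne_zero_of_sum_ne_zero hw
  obtain ⟨q, hq, hq2⟩ := Finset.exists_ne_zero_of_sum_ne_zero hp2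
  rw [Finsupp.mem_support_iff] at hp hq
  by_cases h1 : p * q = w
  · rw [← h1]
    exact h _ _ (hf p hp) (hg q hq)
  · exact absurd (if_neg h1) hq2

theorem Sp.single {P : List α → Prop} {l : List α} (h : P l) (c : R) :
    Sp P (MonoidAlgebra.single (FreeMonoid.ofList l) c) := by
  intro w hw
  rw [MonoidAlgebra.coeff_single] at hw
  by_cases h1 : FreeMonoid.ofList l = w
  · rw [← h1]; exact h
  · rw [Finsupp.single_eq_of_ne (Ne.symm h1)] at hw
    exact absurd rfl hw

/-- Same length and at least `l`. -/
def Ge (l w : List α) : Prop := w.length = l.length ∧ l ≤ w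

/-- Same length and larger than `l`. -/
def Gt (l w : List α) : Prop := w.length = l.length ∧ l < w

theorem append_lt_left {u p v q : List α} (h1 : p.length = u.length) (h2 : u < p) :
    u ++ v < p ++ q := by
  rcases lex_cases (show List.Lex (· < ·) u p from h2) with ⟨z, hz, h3⟩ | h3
  · exfalso
    have h4 := congrArg List.length h3
    have h5 := List.length_pos_of_ne_nil hz
    simp only [List.length_append] at h4
    omega
  · exact h3 v q

theorem append_lt_right (u : List α) {v q : List α} (h : v < q) : u ++ v < u ++ q :=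
  lex_append u (show List.Lex (· < ·) v q from h)

/-- `f` is the word `l` plus larger words of the same length. -/
def Lead (l : List α) (f : MonoidAlgebra R (FreeMonoid α)) : Prop :=
  Sp (Gt l) (f - MonoidAlgebra.single (FreeMonoid.ofList l) 1)

theorem Lead.sp {l : List α} {f : MonoidAlgebra R (FreeMonoid α)} (h : Lead l f) :
    Sp (Ge l) f := by
  have h1 : f = (f - MonoidAlgebra.single (FreeMonoid.ofList l) 1) +
      MonoidAlgebra.single (FreeMonoid.ofList l) 1 := by abel
  rw [h1]
  exact (h.mono fun w hw => ⟨hw.1, hw.2.le⟩).add (Sp.single ⟨rfl, le_refl l⟩ 1)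

theorem Lead.coeff_self {l : List α} {f : MonoidAlgebra R (FreeMonoid α)} (h : Lead l f) :
    f.coeff (FreeMonoid.ofList l) = 1 := by
  by_contra hcon
  have h1 := h (FreeMonoid.ofList l) (by
    rw [MonoidAlgebra.coeff_sub, Finsupp.sub_apply, MonoidAlgebra.coeff_single,
      Finsupp.single_eq_same]
    intro h2
    exact hcon (sub_eq_zero.mp h2))
  exact lt_irrefl _ h1.2

theorem Lead.bracket {u v : List α} {f g : MonoidAlgebra R (FreeMonoid α)} (hf : Lead u f)
    (hg : Lead v g) (hu : u ≠ []) (hv : v ≠ []) (huv : Lyn (· < ·) (u ++ v)) :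
    Lead (u ++ v) ⁅f, g⁆ := by
  have key : ⁅f, g⁆ - MonoidAlgebra.single (FreeMonoid.ofList (u ++ v)) 1 =
      ((f - MonoidAlgebra.single (FreeMonoid.ofList u) 1) * g +
        MonoidAlgebra.single (FreeMonoid.ofList u) 1 *
          (g - MonoidAlgebra.single (FreeMonoid.ofList v) 1)) - g * f := by
    have h1 : MonoidAlgebra.single (FreeMonoid.ofList (u ++ v)) (1 : R) =
        MonoidAlgebra.single (FreeMonoid.ofList u) 1 *
          MonoidAlgebra.single (FreeMonoid.ofList v) 1 := by
      rw [MonoidAlgebra.single_mul_single, one_mul]; rfl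
    rw [h1, LieRing.of_associative_ring_bracket]
    noncomm_ring
  rw [Lead, key]
  refine Sp.sub (Sp.add ?_ ?_) ?_
  · refine Sp.mul hf hg.sp fun p q hp hq => ⟨?_, append_lt_left hp.1 hp.2⟩
    rw [List.length_append, List.length_append, hp.1, hq.1]
  · refine Sp.mul (Sp.single (P := fun w => w = u) rfl 1) hg fun p q hp hq => ?_
    subst hp
    refine ⟨?_, append_lt_right _ hq.2⟩
    rw [List.length_append, List.length_append, hq.1]
  · refine Sp.mul hg.sp hf.sp fun p q hp hq => ⟨?_, ?_⟩
    · rw [List.length_append, List.length_append, hp.1, hq.1]; omega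
    · have h1 : u ++ v < v ++ u := huv.append_lt hu hv
      refine lt_of_lt_of_le h1 ?_
      rcases hp.2.lt_or_eq with h2 | h2
      · exact (append_lt_left hp.1 h2).le
      · rw [← h2]
        rcases hq.2.lt_or_eq with h3 | h3
        · exact (append_lt_right v h3).le
        · rw [← h3]

theorem IsBr.lead {l : List α} {x : FreeLieAlgebra R α} (h : IsBr R l x) :
    Lead l (assoc R α x) := by
  induction h with
  | single a =>
    rw [assoc_of, Lead, sub_self]
    intro w hw
    exact absurd rfl hw
  | mul hu hv huv _ _ ih1 ih2 =>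
    rw [LieHom.map_lie]
    exact ih1.bracket ih2 hu.1 hv.1 huv

/-- A family of elements with different leading words is linearly independent. -/
theorem linearIndependent_of_lead {ι : Type*} (l : ι → List α) (hl : Function.Injective l)
    (f : ι → MonoidAlgebra R (FreeMonoid α)) (h : ∀ i, Lead (l i) (f i)) :
    LinearIndependent R f := by
  classical
  rw [linearIndependent_iff']
  intro s c hc i hi
  by_contra hcon
  obtain ⟨j, hj, hmin⟩ := Finset.exists_min_image (s.filter fun i => c i ≠ 0) l
    ⟨i, by simp [hi, hcon]⟩
  rw [Finset.mem_filter] at hj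
  have h1 := congrArg (fun f : MonoidAlgebra R (FreeMonoid α) =>
    f.coeff (FreeMonoid.ofList (l j))) hc
  simp only [MonoidAlgebra.coeff_sum, Finsupp.finsetSum_apply, MonoidAlgebra.coeff_smul,
    Finsupp.smul_apply, MonoidAlgebra.coeff_zero, Finsupp.zero_apply] at h1
  rw [Finset.sum_eq_single_of_mem j hj.1] at h1
  · rw [(h j).coeff_self, smul_eq_mul, mul_one] at h1
    exact hj.2 h1
  · intro k hk hkj
    by_cases h2 : c k = 0
    · rw [h2, zero_smul]
    · have h3 : (f k).coeff (FreeMonoid.ofList (l j)) = 0 := by
        by_contra h4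
        have h5 := (h k).sp _ h4
        have h6 := hmin k (by simp [hk, h2])
        have h7 : l k = l j := le_antisymm h5.2 h6
        exact hkj (hl h7)
      rw [h3, smul_zero]

/-- Bracketings of different Lyndon words are linearly independent. -/
theorem linearIndependent_of_isBr {ι : Type*} (l : ι → List α) (hl : Function.Injective l)
    (x : ι → FreeLieAlgebra R α) (h : ∀ i, IsBr R (l i) (x i)) : LinearIndependent R x := by
  apply LinearIndependent.of_comp ((assoc R α : FreeLieAlgebra R α →ₗ⁅R⁆ _) :
    FreeLieAlgebra R α →ₗ[R] MonoidAlgebra R (FreeMonoid α))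
  exact linearIndependent_of_lead l hl _ fun i => (h i).lead

end free

section graded

variable {R : Type*} [CommRing R] {α : Type*} [LinearOrder α]
  {L : Type*} [LieRing L] [LieAlgebra R L]

theorem IsBr.mem_graded {ψ : α → L} {wt : α → ℕ} {G : ℕ → Submodule R L}
    (hG : ∀ i, ψ i ∈ G (wt i))
    (hbr : ∀ a b x y, x ∈ G a → y ∈ G b → ⁅x, y⁆ ∈ G (a + b)) {l : List α}
    {x : FreeLieAlgebra R α} (h : IsBr R l x) :
    FreeLieAlgebra.lift R ψ x ∈ G (l.map wt).sum := by
  induction h with
  | single a =>
    rw [FreeLieAlgebra.lift_of_apply]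
    simpa using hG a
  | mul _ _ _ _ _ ih1 ih2 =>
    rw [LieHom.map_lie, List.map_append, List.sum_append]
    exact hbr _ _ _ _ ih1 ih2

/-- Free generators `ψ i` of weight `wt i` give linearly independent elements indexed by the Lyndon
words. -/
theorem exists_family {ψ : α → L} (hinj : Function.Injective (FreeLieAlgebra.lift R ψ))
    {wt : α → ℕ} {G : ℕ → Submodule R L} (hG : ∀ i, ψ i ∈ G (wt i))
    (hbr : ∀ a b x y, x ∈ G a → y ∈ G b → ⁅x, y⁆ ∈ G (a + b)) :
    ∃ b : {l : List α // Lyn (· < ·) l} → L, LinearIndependent R b ∧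
      ∀ l, b l ∈ G (l.1.map wt).sum ∧ b l ∈ (FreeLieAlgebra.lift R ψ).range := by
  choose x hx using fun l : {l : List α // Lyn (· < ·) l} =>
    exists_isBr (R := R) _ l.1 rfl l.2
  refine ⟨fun l => FreeLieAlgebra.lift R ψ (x l), ?_, fun l =>
    ⟨(hx l).mem_graded hG hbr, ⟨x l, rfl⟩⟩⟩
  have h1 := linearIndependent_of_isBr (R := R) (fun l : {l : List α // Lyn (· < ·) l} => l.1)
    Subtype.val_injective x hx
  exact h1.map' ((FreeLieAlgebra.lift R ψ : FreeLieAlgebra R α →ₗ⁅R⁆ L) : _ →ₗ[R] L)
    (LinearMap.ker_eq_bot.mpr hinj)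

end graded

section field

variable {R : Type*} [Field R] {α : Type*} [LinearOrder α]
  {L : Type*} [LieRing L] [LieAlgebra R L]

/-- If the weight `w` part `G w` has dimension at most the number of Lyndon words of weight `w`, then
it is contained in the Lie subalgebra generated by the free generators. -/
theorem le_range_of_finrank_le {ψ : α → L}
    (hinj : Function.Injective (FreeLieAlgebra.lift R ψ))
    {wt : α → ℕ} {G : ℕ → Submodule R L} (hG : ∀ i, ψ i ∈ G (wt i))
    (hbr : ∀ a b x y, x ∈ G a → y ∈ G b → ⁅x, y⁆ ∈ G (a + b)) (w : ℕ) [Module.Finite R (G w)]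
    (hle : Module.finrank R (G w) ≤
      {l : List α | Lyn (· < ·) l ∧ (l.map wt).sum = w}.ncard) :
    ∀ x ∈ G w, x ∈ (FreeLieAlgebra.lift R ψ).range := by
  obtain ⟨b, hb, hb2⟩ := exists_family hinj hG hbr
  let S := {l : List α | Lyn (· < ·) l ∧ (l.map wt).sum = w}
  have hmem : ∀ l : S, b ⟨l.1, l.2.1⟩ ∈ G w := by
    intro l
    have h1 := (hb2 ⟨l.1, l.2.1⟩).1
    have h2 := l.2.2
    simpa only [h2] using h1
  let c : S → G w := fun l => ⟨b ⟨l.1, l.2.1⟩, hmem l⟩
  have hc : LinearIndependent R c := by
    apply LinearIndependent.of_comp (G w).subtype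
    exact hb.comp (fun l : S => (⟨l.1, l.2.1⟩ : {l : List α // Lyn (· < ·) l})) (by
      intro l l' h
      exact Subtype.ext (congrArg (fun z : {l : List α // Lyn (· < ·) l} => z.1) h))
  have hfin : Finite S := hc.finite
  have hfin' : Fintype S := Fintype.ofFinite S
  have hcard : Module.finrank R (G w) ≤ Fintype.card S := by
    rw [Fintype.card_eq_nat_card]
    exact hle
  have hcard2 : Fintype.card S = Module.finrank R (G w) :=
    le_antisymm hc.fintype_card_le_finrank hcard
  have hspan : Submodule.span R (Set.range c) = ⊤ :=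
    hc.span_eq_top_of_card_eq_finrank' hcard2
  intro x hx
  have h1 : (⟨x, hx⟩ : G w) ∈ Submodule.span R (Set.range c) := by
    rw [hspan]; trivial
  have h2 : Submodule.span R (Set.range c) ≤
      ((FreeLieAlgebra.lift R ψ).range.toSubmodule).comap (G w).subtype := by
    rw [Submodule.span_le]
    rintro _ ⟨l, rfl⟩
    exact (hb2 ⟨l.1, l.2.1⟩).2
  exact h2 h1

end field

/-- The Lyndon words in the letters `3, 5, 7, …` of weight `w` are the Lyndon words in the letters
`0, 1, 2, …` of weight `w`, where `i` has the weight `2 i + 3`. -/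
theorem ncard_odd (w : ℕ) :
    {l : List ℕ | Lyn (· < ·) l ∧ (l.map fun i => 2 * i + 3).sum = w}.ncard =
      {l : List ℕ | OddW l ∧ l.sum = w ∧ Lyn (· < ·) l}.ncard := by
  have hmono : ∀ l l' : List ℕ, List.Lex (· < ·) (l.map fun i => 2 * i + 3)
      (l'.map fun i => 2 * i + 3) ↔ List.Lex (· < ·) l l' := by
    intro l
    induction l with
    | nil =>
      intro l'
      cases l' with
      | nil =>
        constructor
        · intro h; cases h
        · intro h; cases h
      | cons b l' => exact ⟨fun _ => List.Lex.nil, fun _ => List.Lex.nil⟩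
    | cons a l ih =>
      intro l'
      cases l' with
      | nil =>
        constructor
        · intro h; cases h
        · intro h; cases h
      | cons b l' =>
        constructor
        · intro h
          simp only [List.map_cons] at h
          by_cases hab : a = b
          · subst hab
            exact List.Lex.cons ((ih l').1
              (lex_append_cancel (fun a => lt_irrefl a) [2 * a + 3] h))
          · refine List.Lex.rel ?_
            rcases lex_cons_iff.mp h with h | h
            · omega
            · omega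
        · intro h
          simp only [List.map_cons]
          rcases h with _ | h | h
          · exact List.Lex.rel (by omega)
          · exact List.Lex.cons ((ih l').2 h)
  have hlyn : ∀ l : List ℕ, Lyn (· < ·) (l.map fun i => 2 * i + 3) ↔ Lyn (· < ·) l := by
    intro l
    constructor
    · rintro ⟨h1, h2⟩
      refine ⟨by rintro rfl; exact h1 rfl, ?_⟩
      rintro u v rfl hu hv
      rw [← hmono]
      exact h2 (u.map fun i => 2 * i + 3) _ (by simp) (by simpa using hu) (by simpa using hv)
    · rintro ⟨h1, h2⟩
      refine ⟨by simpa using h1, ?_⟩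
      intro u v huv hu hv
      obtain ⟨u', v', rfl, rfl, rfl⟩ := List.map_eq_append_iff.mp huv
      rw [hmono]
      exact h2 _ _ rfl (by simpa using hu) (by simpa using hv)
  refine Set.ncard_congr (fun l _ => l.map fun i => 2 * i + 3) ?_ ?_ ?_
  · rintro l ⟨h1, h2⟩
    refine ⟨?_, h2, (hlyn l).2 h1⟩
    intro a ha
    obtain ⟨i, _, rfl⟩ := List.mem_map.mp ha
    omega
  · intro l l' _ _ h
    refine List.map_injective_iff.mpr ?_ h
    intro a b hab
    simpa using hab
  · rintro l ⟨h1, h2, h3⟩
    have h4 : (l.map fun a => (a - 3) / 2).map (fun i => 2 * i + 3) = l := by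
      rw [List.map_map]
      conv_rhs => rw [← List.map_id l]
      apply List.map_congr_left
      intro a ha
      have := h1 a ha
      simp only [Function.comp_apply, id_eq]
      omega
    refine ⟨l.map fun a => (a - 3) / 2, ⟨?_, ?_⟩, h4⟩
    · rw [← hlyn, h4]; exact h3
    · show ((l.map fun a => (a - 3) / 2).map (fun i => 2 * i + 3)).sum = w
      rw [h4]; exact h2

/-- The case of one free generator in each odd weight at least `3`. -/
theorem le_range_of_finrank_le_odd {R : Type*} [Field R] {L : Type*} [LieRing L] [LieAlgebra R L]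
    {ψ : ℕ → L} (hinj : Function.Injective (FreeLieAlgebra.lift R ψ))
    {G : ℕ → Submodule R L} (hG : ∀ i, ψ i ∈ G (2 * i + 3))
    (hbr : ∀ a b x y, x ∈ G a → y ∈ G b → ⁅x, y⁆ ∈ G (a + b)) (w : ℕ) [Module.Finite R (G w)]
    (hle : Module.finrank R (G w) ≤ {l : List ℕ | OddW l ∧ l.sum = w ∧ Lyn (· < ·) l}.ncard) :
    ∀ x ∈ G w, x ∈ (FreeLieAlgebra.lift R ψ).range :=
  le_range_of_finrank_le hinj hG hbr w (by rw [ncard_odd]; exact hle)

end Pool.Agent.ECC
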